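import Mathlib
import Pool.Agent.Lib.MP_e4a9a7_pr.Finite
import Pool.Agent.Lib.MP_e4a9a7_pr.Energy
import Pool.Agent.Lib.MP_e4a9a7_pr.Limit
import Pool.Agent.Lib.MP_e4a9a7_pr.D3.FinCore3

namespace Pool.Agent.Results.MP_e4a9a7_pr.DisjointCoupling

open MeasureTheory ProbabilityTheory

/-- `X` is simple random walk on `ℤ^d` started at `x`: it starts at `x`, its increments are
independent, and each increment is each of the `2 d` vectors `± e_i` with probability `1/(2 d)` -/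
structure IsSRW {d : ℕ} {Ω : Type*} [MeasurableSpace Ω] (P : Measure Ω) (x : Fin d → ℤ)
    (X : ℕ → Ω → Fin d → ℤ) : Prop where
  meas : ∀ n, Measurable (X n)
  start : ∀ ω, X 0 ω = x
  indep : iIndepFun (fun n ω => X (n + 1) ω - X n ω) P
  unif : ∀ (n : ℕ) (i : Fin d), P {ω | X (n + 1) ω - X n ω = Pi.single i 1} = 1 / (2 * d) ∧
      P {ω | X (n + 1) ω - X n ω = Pi.single i (-1)} = 1 / (2 * d)

theorem four (x y : Fin 4 → ℤ) (hxy : x ≠ y) :
    ∃ (Ω : Type) (_ : MeasurableSpace Ω) (P : Measure Ω) (_ : IsProbabilityMeasure P)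
      (X Y : ℕ → Ω → (Fin 4 → ℤ)),
      Pool.Agent.Lib.MP_e4a9a7_pr.IsSRW P x X ∧ Pool.Agent.Lib.MP_e4a9a7_pr.IsSRW P y Y ∧
        0 < P {ω | ∀ n m, X n ω ≠ Y m ω} := by
  obtain ⟨cE, CE, hcE, hCE, hE⟩ := Pool.Agent.Lib.MP_e4a9a7_pr.energy
  obtain ⟨C', hC', hoff⟩ := Pool.Agent.Lib.MP_e4a9a7_pr.p_offdiag
  obtain ⟨C, hC, hkey⟩ := Pool.Agent.Lib.MP_e4a9a7_pr.key_est cE CE hcE hCE (fun L hL => by
    have h := hE L hL
    have e : (fun u : Pool.Agent.Lib.MP_e4a9a7_pr.Pth =>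
        Pool.Agent.Lib.MP_e4a9a7_pr.ind (Pool.Agent.Lib.MP_e4a9a7_pr.En L u
          < cE * Pool.Agent.Lib.MP_e4a9a7_pr.HL L))
        = fun u => if Pool.Agent.Lib.MP_e4a9a7_pr.En L u
          < cE * Pool.Agent.Lib.MP_e4a9a7_pr.HL L then (1 : ℝ) else 0 := by
      funext u; exact Pool.Agent.Lib.MP_e4a9a7_pr.ind_eq_ite _
    rw [e]; exact h)
  obtain ⟨c, hc, hfin⟩ := Pool.Agent.Lib.MP_e4a9a7_pr.finite_coupling C C' hC hC' hoff hkey x y hxy
  exact Pool.Agent.Lib.MP_e4a9a7_pr.limit_coupling x y c hc hfin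

/-- For `d = 3` and for `d = 4`, and for all distinct `x, y` in `ℤ^d`, there is a coupling of two
simple random walks from `x` and `y` whose traces are disjoint with positive probability. -/
theorem result (d : ℕ) (hd : d = 3 ∨ d = 4) (x y : Fin d → ℤ) (hxy : x ≠ y) :
    ∃ (Ω : Type) (_ : MeasurableSpace Ω) (P : Measure Ω) (_ : IsProbabilityMeasure P)
      (X Y : ℕ → Ω → (Fin d → ℤ)),
      IsSRW P x X ∧ IsSRW P y Y ∧ 0 < P {ω | ∀ n m, X n ω ≠ Y m ω} := by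
  rcases hd with rfl | rfl
  · obtain ⟨Ω, _, P, _, X, Y, hX, hY, h⟩ := Pool.Agent.Lib.MP_e4a9a7_pr.D3.main3 x y hxy
    have e : (1 : ENNReal) / (2 * ((3 : ℕ) : ENNReal)) = 1 / 6 := by norm_num
    refine ⟨Ω, _, P, inferInstance, X, Y, ⟨hX.meas, hX.start, hX.indep, ?_⟩,
      ⟨hY.meas, hY.start, hY.indep, ?_⟩, h⟩
    · intro n i; rw [e]; exact hX.unif n i
    · intro n i; rw [e]; exact hY.unif n i
  · obtain ⟨Ω, _, P, _, X, Y, hX, hY, h⟩ := four x y hxy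
    have e : (1 : ENNReal) / (2 * ((4 : ℕ) : ENNReal)) = 1 / 8 := by norm_num
    refine ⟨Ω, _, P, inferInstance, X, Y, ⟨hX.meas, hX.start, hX.indep, ?_⟩,
      ⟨hY.meas, hY.start, hY.indep, ?_⟩, h⟩
    · intro n i; rw [e]; exact hX.unif n i
    · intro n i; rw [e]; exact hY.unif n i

end Pool.Agent.Results.MP_e4a9a7_pr.DisjointCoupling
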